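import Mathlib

/-!
Combinatorial part of the bound for layer numbers: selections on a grid with the
no-return property on grid lines.
-/

namespace Pool.Agent.R145.Peel

open Finset

/-- Projections of a set of small diameter along a coordinate direction. -/
theorem card_image_le_box {m : ℕ} (j : Fin m) (A : Finset (Fin m → ℕ)) (M : ℕ)
    (h : ∀ g ∈ A, ∀ g' ∈ A, ∀ k, g k ≤ g' k + M) :
    (A.image (fun g => Function.update g j 0)).card ≤ (M + 1) ^ (m - 1) := by
  classical
  rcases A.eq_empty_or_nonempty with rfl | hA
  · simp
  have hmin : ∀ k, ∃ b ∈ A, ∀ g ∈ A, b k ≤ g k := fun k =>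
    A.exists_min_image (fun g => g k) hA
  choose b hb hbmin using hmin
  have hsub : A.image (fun g => Function.update g j 0) ⊆
      Fintype.piFinset (fun k => if k = j then {0} else Finset.Icc (b k k) (b k k + M)) := by
    intro f hf
    obtain ⟨g, hg, rfl⟩ := Finset.mem_image.1 hf
    rw [Fintype.mem_piFinset]
    intro k
    by_cases hk : k = j
    · subst hk; simp
    · simp only [hk, if_false, Finset.mem_Icc, Function.update_of_ne hk]
      exact ⟨hbmin k g hg, h g hg _ (hb k) k⟩
  refine (Finset.card_le_card hsub).trans ?_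
  rw [Fintype.card_piFinset]
  have h1 : ∀ k, (if k = j then ({0} : Finset ℕ) else Finset.Icc (b k k) (b k k + M)).card
      = if k = j then 1 else (M + 1) := by
    intro k
    split_ifs
    · simp
    · simp only [Nat.card_Icc]; omega
  simp only [h1]
  rw [Finset.prod_ite]
  simp only [Finset.prod_const_one, one_mul, Finset.prod_const]
  apply Nat.pow_le_pow_right (by omega)
  rw [Finset.filter_not, Finset.card_sdiff]
  simp [Finset.filter_eq']

/-- Integer vectors with small pairwise differences. -/
theorem card_le_int_box {m : ℕ} (A : Finset (Fin m → ℤ)) (D : ℕ)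
    (h : ∀ g ∈ A, ∀ g' ∈ A, ∀ k, g k ≤ g' k + D) :
    A.card ≤ (D + 1) ^ m := by
  classical
  rcases A.eq_empty_or_nonempty with rfl | hA
  · simp
  have hmin : ∀ k, ∃ b ∈ A, ∀ g ∈ A, b k ≤ g k := fun k =>
    A.exists_min_image (fun g => g k) hA
  choose b hb hbmin using hmin
  have hsub : A ⊆ Fintype.piFinset (fun k => Finset.Icc (b k k) (b k k + D)) := by
    intro g hg
    rw [Fintype.mem_piFinset]
    intro k
    rw [Finset.mem_Icc]
    exact ⟨hbmin k g hg, h g hg _ (hb k) k⟩
  refine (Finset.card_le_card hsub).trans ?_
  rw [Fintype.card_piFinset]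
  have h1 : ∀ k, (Finset.Icc (b k k) (b k k + (D : ℤ))).card = D + 1 := by
    intro k
    rw [Int.card_Icc]; omega
  simp [h1]

/-- A set of integers with small pairwise differences. -/
theorem card_le_int (A : Finset ℤ) (D : ℕ)
    (h : ∀ g ∈ A, ∀ g' ∈ A, g ≤ g' + D) :
    A.card ≤ D + 1 := by
  classical
  rcases A.eq_empty_or_nonempty with rfl | hA
  · simp
  obtain ⟨b, hb, hbmin⟩ := A.exists_min_image (fun g => g) hA
  have hsub : A ⊆ Finset.Icc b (b + D) := by
    intro g hg
    rw [Finset.mem_Icc]
    exact ⟨hbmin g hg, h g hg _ hb⟩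
  refine (Finset.card_le_card hsub).trans ?_
  rw [Int.card_Icc]; omega

section Sel

variable {ι : Type*} {m : ℕ}

/-- the grid -/
def grid (m N : ℕ) : Finset (Fin m → ℕ) := Fintype.piFinset (fun _ => Finset.range (N + 1))

theorem mem_grid {N : ℕ} {g : Fin m → ℕ} : g ∈ grid m N ↔ ∀ k, g k ≤ N := by
  simp [grid, Fintype.mem_piFinset, Nat.lt_succ_iff]

/-- interior grid points -/
def inner (m N : ℕ) : Finset (Fin m → ℕ) := Fintype.piFinset (fun _ => Finset.Icc 1 (N - 1))

theorem mem_inner {N : ℕ} {g : Fin m → ℕ} : g ∈ inner m N ↔ ∀ k, 1 ≤ g k ∧ g k ≤ N - 1 := by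
  simp [inner, Fintype.mem_piFinset]

theorem card_inner (m N : ℕ) : (inner m N).card = (N - 1) ^ m := by
  simp [inner, Fintype.card_piFinset]

open Classical in
/-- cut edges in direction j -/
noncomputable def cut (N : ℕ) (s : (Fin m → ℕ) → ι) (j : Fin m) : Finset (Fin m → ℕ) :=
  (grid m N).filter (fun g => g j < N ∧ s g ≠ s (Function.update g j (g j + 1)))

/-- no return on grid lines -/
def NoRet (s : (Fin m → ℕ) → ι) : Prop :=
  ∀ (g : Fin m → ℕ) (j : Fin m) (a b c : ℕ), a < b → b < c →
    s (Function.update g j a) = s (Function.update g j c) →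
    s (Function.update g j b) = s (Function.update g j a)

theorem card_cut_le [DecidableEq ι] (N : ℕ) (s : (Fin m → ℕ) → ι) (hs : NoRet s) (j : Fin m) (V : Finset ι)
    (hV : ∀ g, s g ∈ V) :
    (cut N s j).card ≤ ∑ x ∈ V,
      (((grid m N).filter (fun g => s g = x)).image (fun g => Function.update g j 0)).card := by
  classical
  rw [← Finset.card_sigma]
  apply Finset.card_le_card_of_injOn
    (fun g => (⟨s g, Function.update g j 0⟩ : Σ _ : ι, (Fin m → ℕ)))
  · intro g hg
    simp only [Finset.coe_sigma, Set.mem_sigma_iff, Finset.mem_coe]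
    refine ⟨hV g, Finset.mem_image.2 ⟨g, ?_, rfl⟩⟩
    simp only [cut, Finset.coe_filter, Set.mem_ofPred_eq] at hg
    simp [hg.1]
  · intro g hg g' hg' he
    simp only [Sigma.mk.injEq, heq_eq_eq] at he
    obtain ⟨h1, h2⟩ := he
    simp only [cut, Finset.coe_filter, Set.mem_ofPred_eq] at hg hg'
    have h3 : ∀ k, k ≠ j → g k = g' k := by
      intro k hk
      have := congrFun h2 k
      simpa [Function.update_of_ne hk] using this
    have key : ∀ g g' : Fin m → ℕ, (∀ k, k ≠ j → g k = g' k) → s g = s g' →
        s g ≠ s (Function.update g j (g j + 1)) → g j < g' j → False := by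
      intro g g' h3 h1 hc hlt
      have e1 : Function.update g j (g j) = g := Function.update_eq_self _ _
      have e2 : Function.update g j (g' j) = g' := by
        funext k
        by_cases hk : k = j
        · subst hk; simp
        · simp [Function.update_of_ne hk, h3 k hk]
      rcases Nat.lt_or_ge (g j + 1) (g' j) with h | h
      · have := hs g j (g j) (g j + 1) (g' j) (by omega) h (by rw [e1, e2, h1])
        rw [e1] at this
        exact hc this.symm
      · have h5 : g j + 1 = g' j := by omega
        rw [h5, e2] at hc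
        exact hc h1
    rcases lt_trichotomy (g j) (g' j) with h | h | h
    · exact (key g g' h3 h1 hg.2.2 h).elim
    · funext k
      by_cases hk : k = j
      · subst hk; exact h
      · exact h3 k hk
    · exact (key g' g (fun k hk => (h3 k hk).symm) h1.symm hg'.2.2 h).elim

/-- star of g is uncut -/
def Unc (s : (Fin m → ℕ) → ι) (g : Fin m → ℕ) : Prop :=
  ∀ j, s (Function.update g j (g j + 1)) = s g ∧ s (Function.update g j (g j - 1)) = s g

open Classical in
theorem card_cutstar_le (N : ℕ) (s : (Fin m → ℕ) → ι) :
    ((inner m N).filter (fun g => ¬ Unc s g)).card ≤ 2 * ∑ j, (cut N s j).card := by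
  classical
  have h1 : (inner m N).filter (fun g => ¬ Unc s g) ⊆
      (Finset.univ : Finset (Fin m)).biUnion (fun j =>
        (cut N s j) ∪ (cut N s j).image (fun g => Function.update g j (g j + 1))) := by
    intro g hg
    rw [Finset.mem_filter] at hg
    obtain ⟨hg, hu⟩ := hg
    rw [mem_inner] at hg
    simp only [Unc, not_forall] at hu
    obtain ⟨j, hj⟩ := hu
    rw [Finset.mem_biUnion]
    refine ⟨j, Finset.mem_univ _, ?_⟩
    rw [Finset.mem_union]
    have hgj := hg j
    by_cases h : s (Function.update g j (g j + 1)) = s g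
    · right
      have h2 : s (Function.update g j (g j - 1)) ≠ s g := fun h' => hj ⟨h, h'⟩
      rw [Finset.mem_image]
      refine ⟨Function.update g j (g j - 1), ?_, ?_⟩
      · simp only [cut, Finset.mem_filter]
        refine ⟨?_, ?_, ?_⟩
        · rw [mem_grid]
          intro k
          by_cases hk : k = j
          · subst hk; simp; omega
          · rw [Function.update_of_ne hk]; have := hg k; omega
        · simp; omega
        · simp only [Function.update_self, Function.update_idem]
          rw [Nat.sub_add_cancel hgj.1, Function.update_eq_self]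
          exact h2
      · simp only [Function.update_self, Function.update_idem]
        rw [Nat.sub_add_cancel hgj.1, Function.update_eq_self]
    · left
      simp only [cut, Finset.mem_filter]
      refine ⟨?_, by omega, fun h' => h h'.symm⟩
      rw [mem_grid]
      intro k
      have := hg k; omega
  refine (Finset.card_le_card h1).trans ?_
  refine Finset.card_biUnion_le.trans ?_
  rw [Finset.mul_sum]
  apply Finset.sum_le_sum
  intro j _
  refine (Finset.card_union_le _ _).trans ?_
  have := Finset.card_image_le (s := cut N s j) (f := fun g => Function.update g j (g j + 1))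
  omega

end Sel

end Pool.Agent.R145.Peel
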