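import Mathlib
import Pool.Agent.R145.Peel.Grid

/-!
Peeling of finite point sets, linear functionals and the main inequality.
-/

namespace Pool.Agent.R145.Peel

open Finset

/-- Euclidean space -/
abbrev E (d : ℕ) := EuclideanSpace ℝ (Fin d)

open Classical in
/-- `V(X)`: the extreme points of the convex hull of the finite set `X`. -/
noncomputable def vert {d : ℕ} (X : Finset (E d)) : Finset (E d) :=
  X.filter (fun x => x ∈ (convexHull ℝ (X : Set (E d))).extremePoints ℝ)

open Classical in
/-- The peeling sequence, `peel X k` is `X_(k+1)`. -/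
noncomputable def peel {d : ℕ} (X : Finset (E d)) : ℕ → Finset (E d)
  | 0 => X
  | k + 1 => peel X k \ vert (peel X k)

/-- The layer number. -/
noncomputable def layers {d : ℕ} (X : Finset (E d)) : ℕ := sInf {k | peel X k = ∅}

theorem vert_subset {d : ℕ} (X : Finset (E d)) : vert X ⊆ X := by
  classical
  exact Finset.filter_subset _ _

theorem peel_succ_subset {d : ℕ} (X : Finset (E d)) (k : ℕ) : peel X (k + 1) ⊆ peel X k := by
  classical
  show peel X k \ vert (peel X k) ⊆ _
  exact Finset.sdiff_subset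

theorem peel_anti {d : ℕ} (X : Finset (E d)) : Antitone (peel X) :=
  antitone_nat_of_succ_le (fun k => peel_succ_subset X k)

theorem peel_subset {d : ℕ} (X : Finset (E d)) (k : ℕ) : peel X k ⊆ X :=
  peel_anti X (Nat.zero_le k)

theorem not_mem_vert_of_mem_succ {d : ℕ} (X : Finset (E d)) (k : ℕ) {x : E d}
    (hx : x ∈ peel X (k + 1)) : x ∉ vert (peel X k) := by
  classical
  have : x ∈ peel X k \ vert (peel X k) := hx
  exact (Finset.mem_sdiff.1 this).2

theorem vert_disjoint {d : ℕ} (X : Finset (E d)) {i j : ℕ} (h : i < j) :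
    Disjoint (vert (peel X i)) (vert (peel X j)) := by
  rw [Finset.disjoint_left]
  intro x hx hx'
  exact not_mem_vert_of_mem_succ X i (peel_anti X h (vert_subset _ hx')) hx

theorem exists_vert_max {d : ℕ} (X : Finset (E d)) (hX : X.Nonempty) (f : StrongDual ℝ (E d)) :
    ∃ v ∈ vert X, ∀ y ∈ X, f y ≤ f v := by
  classical
  have hK : IsCompact (convexHull ℝ (X : Set (E d))) := X.finite_toSet.isCompact_convexHull ℝ
  have hne : (convexHull ℝ (X : Set (E d))).Nonempty := by
    obtain ⟨x, hx⟩ := hX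
    exact ⟨x, subset_convexHull ℝ _ hx⟩
  have hexp : IsExposed ℝ (convexHull ℝ (X : Set (E d))) (f.toExposed (convexHull ℝ (X : Set (E d)))) :=
    ContinuousLinearMap.toExposed.isExposed
  have hcomp := hexp.isCompact hK
  have hne2 : (f.toExposed (convexHull ℝ (X : Set (E d)))).Nonempty := by
    obtain ⟨x, hx, hmax⟩ := hK.exists_isMaxOn hne f.continuous.continuousOn
    exact ⟨x, hx, fun y hy => hmax hy⟩
  obtain ⟨v, hv⟩ := hcomp.extremePoints_nonempty hne2
  have hv1 := hv.1
  have hv2 : v ∈ (convexHull ℝ (X : Set (E d))).extremePoints ℝ :=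
    hexp.isExtreme.extremePoints_subset_extremePoints hv
  refine ⟨v, ?_, fun y hy => hv1.2 y (subset_convexHull ℝ _ hy)⟩
  rw [vert, Finset.mem_filter]
  exact ⟨by simpa using extremePoints_convexHull_subset hv2, hv2⟩

theorem vert_nonempty {d : ℕ} (X : Finset (E d)) (hX : X.Nonempty) : (vert X).Nonempty := by
  obtain ⟨v, hv, _⟩ := exists_vert_max X hX 0
  exact ⟨v, hv⟩

theorem peel_card_le {d : ℕ} (X : Finset (E d)) (k : ℕ) : (peel X k).card ≤ X.card - k := by
  classical
  induction k with
  | zero => simp [peel]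
  | succ k ih =>
    rcases (peel X k).eq_empty_or_nonempty with h | h
    · have : peel X (k + 1) ⊆ peel X k := peel_succ_subset X k
      rw [h, Finset.subset_empty] at this
      simp [this]
    · have h1 : (peel X (k + 1)).card < (peel X k).card := by
        apply Finset.card_lt_card
        refine ⟨peel_succ_subset X k, fun hsub => ?_⟩
        obtain ⟨v, hv⟩ := vert_nonempty _ h
        exact not_mem_vert_of_mem_succ X k (hsub (vert_subset _ hv)) hv
      omega

theorem exists_peel_empty {d : ℕ} (X : Finset (E d)) : peel X X.card = ∅ := by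
  have := peel_card_le X X.card
  rw [Nat.sub_self] at this
  exact Finset.card_eq_zero.1 (Nat.le_zero.1 this)

theorem layers_le_card {d : ℕ} (X : Finset (E d)) : layers X ≤ X.card :=
  Nat.sInf_le (exists_peel_empty X)

theorem peel_nonempty_of_lt {d : ℕ} (X : Finset (E d)) {i : ℕ} (hi : i < layers X) :
    (peel X i).Nonempty := by
  rw [Finset.nonempty_iff_ne_empty]
  intro h
  exact absurd (Nat.sInf_le (show i ∈ {k | peel X k = ∅} from h)) (not_le.2 hi)

/-- integer scaled linear functional -/
noncomputable def lf {m : ℕ} (N : ℕ) (g : Fin m → ℕ) (y : E (m + 1)) : ℝ :=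
  (N : ℝ) * y 0 + ∑ j, (g j : ℝ) * y j.succ

/-- the same as a continuous linear functional -/
noncomputable def lfL {m : ℕ} (N : ℕ) (g : Fin m → ℕ) : StrongDual ℝ (E (m + 1)) :=
  (N : ℝ) • (EuclideanSpace.proj (0 : Fin (m + 1)) : StrongDual ℝ (E (m + 1))) +
    ∑ j, (g j : ℝ) • (EuclideanSpace.proj (j.succ : Fin (m + 1)) : StrongDual ℝ (E (m + 1)))

theorem lfL_apply {m : ℕ} (N : ℕ) (g : Fin m → ℕ) (y : E (m + 1)) : lfL N g y = lf N g y := by
  simp [lfL, lf]

theorem lf_update {m : ℕ} (N : ℕ) (g : Fin m → ℕ) (j : Fin m) (a : ℕ) (y : E (m + 1)) :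
    lf N (Function.update g j a) y = lf N g y + ((a : ℝ) - g j) * y j.succ := by
  simp only [lf]
  have : ∀ k, ((Function.update g j a k : ℕ) : ℝ) * y k.succ =
      (g k : ℝ) * y k.succ + (if k = j then ((a : ℝ) - g j) * y j.succ else 0) := by
    intro k
    by_cases hk : k = j
    · subst hk; simp; ring
    · simp [Function.update_of_ne hk, hk]
  simp only [this, Finset.sum_add_distrib, Finset.sum_ite_eq', Finset.mem_univ, if_true]
  ring

theorem exists_sel {m : ℕ} (N : ℕ) (Y : Finset (E (m + 1))) (hY : Y.Nonempty) :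
    ∃ s : (Fin m → ℕ) → E (m + 1), (∀ g, s g ∈ vert Y) ∧
      (∀ g, ∀ y ∈ Y, lf N g y ≤ lf N g (s g)) ∧ NoRet s := by
  classical
  obtain ⟨f, hf⟩ := Set.countable_iff_exists_injOn.1 (Y.finite_toSet.countable)
  have h1 : ∀ g : Fin m → ℕ, ∃ v ∈ (vert Y).filter (fun v => ∀ y ∈ Y, lf N g y ≤ lf N g v),
      ∀ v' ∈ (vert Y).filter (fun v => ∀ y ∈ Y, lf N g y ≤ lf N g v), f v ≤ f v' := by
    intro g
    apply Finset.exists_min_image
    obtain ⟨v, hv, hmax⟩ := exists_vert_max Y hY (lfL N g)
    refine ⟨v, Finset.mem_filter.2 ⟨hv, fun y hy => ?_⟩⟩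
    rw [← lfL_apply, ← lfL_apply]
    exact hmax y hy
  choose s hs hmin using h1
  have hs' : ∀ g, s g ∈ vert Y ∧ ∀ y ∈ Y, lf N g y ≤ lf N g (s g) := fun g => by
    have := hs g
    rw [Finset.mem_filter] at this
    exact this
  refine ⟨s, fun g => (hs' g).1, fun g => (hs' g).2, ?_⟩
  intro g j a b c hab hbc hac
  set x := s (Function.update g j a) with hx
  have hab' : (0 : ℝ) < (b : ℝ) - a := by
    have : (a : ℝ) < b := by exact_mod_cast hab
    linarith
  have hbc' : (0 : ℝ) < (c : ℝ) - b := by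
    have : (b : ℝ) < c := by exact_mod_cast hbc
    linarith
  have hconv : ∀ y : E (m + 1), ((c : ℝ) - a) * lf N (Function.update g j b) y =
      ((c : ℝ) - b) * lf N (Function.update g j a) y +
      ((b : ℝ) - a) * lf N (Function.update g j c) y := by
    intro y
    rw [lf_update, lf_update, lf_update]
    ring
  have hxa : ∀ y ∈ Y, lf N (Function.update g j a) y ≤ lf N (Function.update g j a) x :=
    (hs' (Function.update g j a)).2
  have hxc : ∀ y ∈ Y, lf N (Function.update g j c) y ≤ lf N (Function.update g j c) x := by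
    rw [hac]
    exact (hs' (Function.update g j c)).2
  have hxV : x ∈ vert Y := (hs' (Function.update g j a)).1
  have hxb : ∀ y ∈ Y, lf N (Function.update g j b) y ≤ lf N (Function.update g j b) x := by
    intro y hy
    have e1 := hconv y
    have e2 := hconv x
    have e3 := mul_le_mul_of_nonneg_left (hxa y hy) hbc'.le
    have e4 := mul_le_mul_of_nonneg_left (hxc y hy) hab'.le
    have e5 : ((c : ℝ) - a) * lf N (Function.update g j b) y ≤
        ((c : ℝ) - a) * lf N (Function.update g j b) x := by linarith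
    exact le_of_mul_le_mul_left e5 (by linarith)
  set v := s (Function.update g j b) with hv
  have hvY : v ∈ Y := vert_subset _ (hs' (Function.update g j b)).1
  have hvV : v ∈ vert Y := (hs' (Function.update g j b)).1
  have hxY : x ∈ Y := vert_subset _ hxV
  have hfv : f v ≤ f x := hmin (Function.update g j b) x (Finset.mem_filter.2 ⟨hxV, hxb⟩)
  have hvb : lf N (Function.update g j b) v = lf N (Function.update g j b) x :=
    le_antisymm (hxb v hvY) ((hs' (Function.update g j b)).2 x hxY)
  have hva : lf N (Function.update g j a) v = lf N (Function.update g j a) x := by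
    apply le_antisymm (hxa v hvY)
    have e1 := hconv v
    have e2 := hconv x
    rw [hvb] at e1
    have e4 := mul_le_mul_of_nonneg_left (hxc v hvY) hab'.le
    have e5 : ((c : ℝ) - b) * lf N (Function.update g j a) x ≤
        ((c : ℝ) - b) * lf N (Function.update g j a) v := by linarith
    exact le_of_mul_le_mul_left e5 hbc'
  have hfx : f x ≤ f v := by
    apply hmin (Function.update g j a) v (Finset.mem_filter.2 ⟨hvV, ?_⟩)
    intro y hy
    rw [hva]
    exact hxa y hy
  exact hf hvY hxY (le_antisymm hfv hfx)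

theorem dist_le_sum {m : ℕ} (x y : E (m + 1)) :
    dist x y ≤ |x 0 - y 0| + ∑ j : Fin m, |x j.succ - y j.succ| := by
  rw [EuclideanSpace.dist_eq, Fin.sum_univ_succ]
  apply Real.sqrt_le_iff.2
  have hnn : 0 ≤ ∑ j : Fin m, |x j.succ - y j.succ| :=
    Finset.sum_nonneg (fun _ _ => abs_nonneg _)
  refine ⟨by positivity, ?_⟩
  simp only [Real.dist_eq, sq_abs]
  have h1 : ∑ j : Fin m, (x j.succ - y j.succ) ^ 2 ≤ (∑ j : Fin m, |x j.succ - y j.succ|) ^ 2 := by
    have := Finset.sum_sq_le_sq_sum_of_nonneg (s := (Finset.univ : Finset (Fin m)))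
      (f := fun j => |x j.succ - y j.succ|) (fun _ _ => abs_nonneg _)
    simpa [sq_abs] using this
  have h2 : (x 0 - y 0) ^ 2 = |x 0 - y 0| ^ 2 := (sq_abs _).symm
  rw [h2]
  nlinarith [abs_nonneg (x 0 - y 0), mul_nonneg (abs_nonneg (x 0 - y 0)) hnn]

section Main

variable {m : ℕ} (X : Finset (E (m + 1))) (N L : ℕ) (s : ℕ → (Fin m → ℕ) → E (m + 1))
  (hsV : ∀ i, i < L → ∀ g, s i g ∈ vert (peel X i))
  (hsmax : ∀ i, i < L → ∀ g, ∀ y ∈ peel X i, lf N g y ≤ lf N g (s i g))
  (ρ : ℝ) (hρ : 0 < ρ) (hsep : ∀ x ∈ X, ∀ y ∈ X, x ≠ y → ρ ≤ dist x y)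
  (hbox : ∀ x ∈ X, ∀ y ∈ X, ∀ k, |x k - y k| ≤ 2)

include hsV hsmax hsep in
theorem drop (hN : 1 ≤ N) (g : Fin m → ℕ) (hg : g ∈ inner m N) (i : ℕ) (hi : i + 1 < L)
    (hu : Unc (s i) g) :
    ρ ≤ (2 * m + 1) * (lf N g (s i g) - lf N g (s (i + 1) g)) := by
  rw [mem_inner] at hg
  set x := s i g with hx
  set y := s (i + 1) g with hy
  have hyV : y ∈ vert (peel X (i + 1)) := hsV (i + 1) hi g
  have hyP : y ∈ peel X (i + 1) := vert_subset _ hyV
  have hyP' : y ∈ peel X i := peel_succ_subset X i hyP
  have hxV : x ∈ vert (peel X i) := hsV i (by omega) g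
  have hne : x ≠ y := by
    intro h
    exact not_mem_vert_of_mem_succ X i hyP (h ▸ hxV)
  have hρ' := hsep x (peel_subset X i (vert_subset _ hxV)) y (peel_subset X i hyP') hne
  set A := lf N g x - lf N g y with hA
  have hj : ∀ j : Fin m, |x j.succ - y j.succ| ≤ A := by
    intro j
    obtain ⟨h1, h2⟩ := hu j
    have e1 := hsmax i (by omega) (Function.update g j (g j + 1)) y hyP'
    have e2 := hsmax i (by omega) (Function.update g j (g j - 1)) y hyP'
    rw [h1, lf_update, lf_update] at e1
    rw [h2, lf_update, lf_update] at e2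
    have hgj := (hg j).1
    push_cast [Nat.cast_sub hgj] at e1 e2
    rw [abs_le]
    constructor <;> linarith
  have hApos : 0 ≤ A := by
    have := hsmax i (by omega) g y hyP'
    linarith
  have hN' : (1 : ℝ) ≤ N := by exact_mod_cast hN
  have h0 : |x 0 - y 0| ≤ (m + 1) * A := by
    have e1 : (N : ℝ) * (x 0 - y 0) = A - ∑ j, (g j : ℝ) * (x j.succ - y j.succ) := by
      rw [hA]
      simp only [lf]
      have : ∑ j, (g j : ℝ) * (x j.succ - y j.succ) =
          ∑ j, (g j : ℝ) * x j.succ - ∑ j, (g j : ℝ) * y j.succ := by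
        rw [← Finset.sum_sub_distrib]
        apply Finset.sum_congr rfl
        intro j _
        ring
      rw [this]
      ring
    have e2 : |∑ j, (g j : ℝ) * (x j.succ - y j.succ)| ≤ m * (N * A) := by
      refine (Finset.abs_sum_le_sum_abs _ _).trans ?_
      have : ∀ j ∈ (Finset.univ : Finset (Fin m)), |(g j : ℝ) * (x j.succ - y j.succ)| ≤ N * A := by
        intro j _
        rw [abs_mul, Nat.abs_cast]
        have hgj : (g j : ℝ) ≤ N := by
          have := (hg j).2
          have : g j ≤ N := by omega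
          exact_mod_cast this
        exact mul_le_mul hgj (hj j) (abs_nonneg _) (by linarith)
      refine (Finset.sum_le_sum this).trans ?_
      simp
    have e3 : (N : ℝ) * |x 0 - y 0| ≤ A + m * (N * A) := by
      have : (N : ℝ) * |x 0 - y 0| = |(N : ℝ) * (x 0 - y 0)| := by
        rw [abs_mul, Nat.abs_cast]
      rw [this, e1]
      refine (abs_sub _ _).trans ?_
      rw [abs_of_nonneg hApos]
      linarith
    have e4 : (N : ℝ) * |x 0 - y 0| ≤ N * ((m + 1) * A) := by
      nlinarith [mul_le_mul_of_nonneg_right hN' hApos]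
    exact le_of_mul_le_mul_left e4 (by linarith)
  have h5 := dist_le_sum x y
  have h6 : ∑ j : Fin m, |x j.succ - y j.succ| ≤ m * A := by
    refine (Finset.sum_le_sum (fun j _ => hj j)).trans ?_
    simp
  linarith

include hbox in
theorem lf_range (g : Fin m → ℕ) (hg : ∀ j, g j ≤ N) (x y : E (m + 1)) (hx : x ∈ X) (hy : y ∈ X) :
    lf N g x - lf N g y ≤ 2 * N * (m + 1) := by
  have e1 : lf N g x - lf N g y = (N : ℝ) * (x 0 - y 0) + ∑ j, (g j : ℝ) * (x j.succ - y j.succ) := by
    simp only [lf]
    have : ∑ j, (g j : ℝ) * (x j.succ - y j.succ) =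
        ∑ j, (g j : ℝ) * x j.succ - ∑ j, (g j : ℝ) * y j.succ := by
      rw [← Finset.sum_sub_distrib]
      apply Finset.sum_congr rfl
      intro j _
      ring
    rw [this]
    ring
  have e2 : ∑ j, (g j : ℝ) * (x j.succ - y j.succ) ≤ ∑ _j : Fin m, ((N : ℝ) * 2) := by
    apply Finset.sum_le_sum
    intro j _
    have h1 : (g j : ℝ) ≤ N := by exact_mod_cast hg j
    have h2 := (abs_le.1 (hbox x hx y hy j.succ)).2
    have h3 : (0 : ℝ) ≤ g j := Nat.cast_nonneg _
    nlinarith
  have h0 := (abs_le.1 (hbox x hx y hy 0)).2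
  have hN : (0 : ℝ) ≤ N := Nat.cast_nonneg _
  simp only [Finset.sum_const, Finset.card_univ, Fintype.card_fin, nsmul_eq_mul] at e2
  rw [e1]
  nlinarith

open Classical in
include hsV hsmax hsep hbox hρ in
theorem unc_count (hN : 1 ≤ N) (g : Fin m → ℕ) (hg : g ∈ inner m N) :
    (((Finset.range L).filter (fun i => Unc (s i) g)).card : ℝ) ≤
      1 + 2 * N * (m + 1) * (2 * m + 1) / ρ := by
  classical
  rcases Nat.eq_zero_or_pos L with h0 | hLpos
  · subst h0
    simp
    positivity
  set U := (Finset.range (L - 1)).filter (fun i => Unc (s i) g) with hU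
  have h1 : (Finset.range L).filter (fun i => Unc (s i) g) ⊆ insert (L - 1) U := by
    intro i hi
    rw [Finset.mem_filter, Finset.mem_range] at hi
    rw [Finset.mem_insert, hU, Finset.mem_filter, Finset.mem_range]
    by_cases h : i = L - 1
    · left; exact h
    · right; exact ⟨by omega, hi.2⟩
  have h2 : (((Finset.range L).filter (fun i => Unc (s i) g)).card : ℝ) ≤ U.card + 1 := by
    have := (Finset.card_le_card h1).trans (Finset.card_insert_le _ _)
    exact_mod_cast this
  have hmono : ∀ i, i + 1 < L → 0 ≤ lf N g (s i g) - lf N g (s (i + 1) g) := by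
    intro i hi
    have := hsmax i (by omega) g (s (i + 1) g)
      (peel_succ_subset X i (vert_subset _ (hsV (i + 1) hi g)))
    linarith
  have h3 : (U.card : ℝ) * (ρ / (2 * m + 1)) ≤
      ∑ i ∈ Finset.range (L - 1), (lf N g (s i g) - lf N g (s (i + 1) g)) := by
    have e1 : (U.card : ℝ) * (ρ / (2 * m + 1)) = ∑ _i ∈ U, (ρ / (2 * m + 1)) := by simp
    rw [e1]
    have e2 : ∑ _i ∈ U, (ρ / (2 * (m : ℝ) + 1)) ≤
        ∑ i ∈ U, (lf N g (s i g) - lf N g (s (i + 1) g)) := by
      apply Finset.sum_le_sum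
      intro i hi
      rw [hU, Finset.mem_filter, Finset.mem_range] at hi
      have := drop X N L s hsV hsmax ρ hsep hN g hg i (by omega) hi.2
      rw [div_le_iff₀ (by positivity)]
      linarith
    refine e2.trans ?_
    apply Finset.sum_le_sum_of_subset_of_nonneg
    · rw [hU]; exact Finset.filter_subset _ _
    · intro i hi _
      rw [Finset.mem_range] at hi
      exact hmono i (by omega)
  rw [Finset.sum_range_sub'] at h3
  have h4 := lf_range X N hbox g (fun j => by
      have := (mem_inner.1 hg j).2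
      omega) (s 0 g) (s (L - 1) g)
      (peel_subset X 0 (vert_subset _ (hsV 0 hLpos g)))
      (peel_subset X (L - 1) (vert_subset _ (hsV (L - 1) (by omega) g)))
  have h5 : (U.card : ℝ) * (ρ / (2 * m + 1)) ≤ 2 * N * (m + 1) := h3.trans h4
  have h6 : (U.card : ℝ) ≤ 2 * N * (m + 1) * (2 * m + 1) / ρ := by
    rw [le_div_iff₀ hρ]
    rw [mul_div_assoc', div_le_iff₀ (by positivity)] at h5
    linarith
  linarith

end Main

end Pool.Agent.R145.Peel
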