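import Mathlib
import Pool.Agent.R145.Peel.Geo

/-!
Counting points with long cells, and the main inequality.
-/

namespace Pool.Agent.R145.Peel

open Finset

theorem floor_close {a b ε : ℝ} (hε : 0 < ε) (h : ⌊a / ε⌋ = ⌊b / ε⌋) : |a - b| ≤ ε := by
  have h1 := Int.abs_sub_lt_one_of_floor_eq_floor h
  have : |a - b| = |a / ε - b / ε| * ε := by
    rw [← sub_div, abs_div, abs_of_pos hε]
    field_simp
  rw [this]
  nlinarith

theorem floor_close' {a b ε : ℝ} (hε : 0 < ε) (h : ⌊a / ε⌋ = ⌊b / ε⌋) : |a - b| < ε := by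
  have h1 := Int.abs_sub_lt_one_of_floor_eq_floor h
  have : |a - b| = |a / ε - b / ε| * ε := by
    rw [← sub_div, abs_div, abs_of_pos hε]
    field_simp
  rw [this]
  nlinarith

theorem floor_le_add {a b ε : ℝ} (hε : 0 < ε) (B : ℝ) (D : ℕ) (hD : B / ε ≤ D)
    (h : |a - b| ≤ B) : ⌊a / ε⌋ ≤ ⌊b / ε⌋ + D := by
  have h1 : a ≤ b + B := by have := (abs_le.1 h).2; linarith
  have h2 : a / ε ≤ b / ε + D := by
    have : a / ε ≤ (b + B) / ε := by gcongr
    rw [add_div] at this
    linarith
  have h3 := Int.floor_le_floor h2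
  rw [Int.floor_add_natCast] at h3
  exact h3

section Main

variable {m : ℕ} (X : Finset (E (m + 1))) (N L : ℕ) (s : ℕ → (Fin m → ℕ) → E (m + 1))
  (hsV : ∀ i, i < L → ∀ g, s i g ∈ vert (peel X i))
  (hsmax : ∀ i, i < L → ∀ g, ∀ y ∈ peel X i, lf N g y ≤ lf N g (s i g))
  (ρ : ℝ) (hρ : 0 < ρ) (hsep : ∀ x ∈ X, ∀ y ∈ X, x ≠ y → ρ ≤ dist x y)
  (hbox : ∀ x ∈ X, ∀ y ∈ X, ∀ k, |x k - y k| ≤ 2)

open Classical in
/-- a class of points with long cells -/
noncomputable def cls (M : ℕ) (j : Fin m) (q : ℕ) : Finset (E (m + 1)) :=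
  X.filter (fun x => ∃ i < L, ∃ g ∈ grid m N, ∃ g' ∈ grid m N, s i g = x ∧ s i g' = x ∧
    g' j + M ≤ q * M ∧ q * M + M ≤ g j)

/-- slab estimate, one ordering of the layers -/
theorem slab_aux (M T : ℕ) (hM : 1 ≤ M) (hNTM : N = T * M) (hT : 1 ≤ T)
    (j : Fin m) (q : ℕ) (g g' : Fin m → ℕ) (hg : g ∈ grid m N) (hg' : g' ∈ grid m N)
    (h1 : g' j + M ≤ q * M) (h2 : q * M + M ≤ g j)
    (x y : E (m + 1)) (e1 : lf N g y ≤ lf N g x) (e2 : lf N g' y ≤ lf N g' x) :
    |y j.succ - x j.succ| ≤ T * (|(y 0 - x 0) + (q / T : ℝ) * (y j.succ - x j.succ)| +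
      ∑ k ∈ Finset.univ.erase j, |y k.succ - x k.succ|) := by
  classical
  rw [mem_grid] at hg hg'
  have hT' : (0 : ℝ) < T := by exact_mod_cast hT
  have hM' : (0 : ℝ) < M := by exact_mod_cast hM
  have hN' : (N : ℝ) = T * M := by exact_mod_cast hNTM
  set R := ∑ k ∈ Finset.univ.erase j, |y k.succ - x k.succ| with hR
  have hexp : ∀ g : Fin m → ℕ, (∀ k, g k ≤ N) → lf N g y ≤ lf N g x →
      (N : ℝ) * (y 0 - x 0) + (g j : ℝ) * (y j.succ - x j.succ) ≤ N * R := by
    intro g hg e
    have e3 : ∀ z : E (m + 1), lf N g z = (N : ℝ) * z 0 + ((g j : ℝ) * z j.succ +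
        ∑ k ∈ Finset.univ.erase j, (g k : ℝ) * z k.succ) := by
      intro z
      rw [lf, Finset.add_sum_erase Finset.univ (fun k => (g k : ℝ) * z k.succ) (Finset.mem_univ j)]
    rw [e3, e3] at e
    have e4 : ∑ k ∈ Finset.univ.erase j, (g k : ℝ) * x k.succ -
        ∑ k ∈ Finset.univ.erase j, (g k : ℝ) * y k.succ ≤ N * R := by
      rw [← Finset.sum_sub_distrib, hR, Finset.mul_sum]
      apply Finset.sum_le_sum
      intro k _
      have h3 : (g k : ℝ) ≤ N := by exact_mod_cast hg k
      have h4 : (0 : ℝ) ≤ g k := Nat.cast_nonneg _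
      have h5 := neg_abs_le (y k.succ - x k.succ)
      have h6 := abs_nonneg (y k.succ - x k.succ)
      nlinarith
    linarith
  have f1 := hexp g hg e1
  have f2 := hexp g' hg' e2
  set t := y j.succ - x j.succ with ht
  set a := (y 0 - x 0) + (q / T : ℝ) * t with ha
  have hqM : (N : ℝ) * (y 0 - x 0) = N * a - (q * M : ℝ) * t := by
    rw [ha, hN']
    field_simp
    ring
  have h1' : (g' j : ℝ) + M ≤ q * M := by exact_mod_cast h1
  have h2' : (q : ℝ) * M + M ≤ g j := by exact_mod_cast h2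
  have habs := neg_abs_le a
  have hkey : (M : ℝ) * |t| ≤ N * (|a| + R) := by
    have hNpos : (0 : ℝ) < N := by rw [hN']; positivity
    rcases le_or_gt 0 t with h | h
    · rw [abs_of_nonneg h]
      have e5 : (M : ℝ) * t ≤ ((g j : ℝ) - q * M) * t :=
        mul_le_mul_of_nonneg_right (by linarith) h
      have e6 := mul_le_mul_of_nonneg_left habs hNpos.le
      linarith
    · rw [abs_of_neg h]
      have e5 : (M : ℝ) * (-t) ≤ ((q : ℝ) * M - g' j) * (-t) :=
        mul_le_mul_of_nonneg_right (by linarith) (by linarith)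
      have e6 := mul_le_mul_of_nonneg_left habs hNpos.le
      linarith
  rw [hN'] at hkey
  have : (M : ℝ) * |t| ≤ M * (T * (|a| + R)) := by linarith
  exact le_of_mul_le_mul_left this hM'

include hsmax hsV in
theorem slab (M T : ℕ) (hM : 1 ≤ M) (hNTM : N = T * M) (hT : 1 ≤ T)
    (j : Fin m) (q : ℕ) (x y : E (m + 1)) (hx : x ∈ cls X N L s M j q)
    (hy : y ∈ cls X N L s M j q) :
    |y j.succ - x j.succ| ≤ T * (|(y 0 - x 0) + (q / T : ℝ) * (y j.succ - x j.succ)| +
      ∑ k ∈ Finset.univ.erase j, |y k.succ - x k.succ|) := by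
  classical
  rw [cls, Finset.mem_filter] at hx hy
  obtain ⟨hxX, i, hi, g, hg, g', hg', e1, e2, h1, h2⟩ := hx
  obtain ⟨hyX, i', hi', f, hf, f', hf', e1', e2', h1', h2'⟩ := hy
  rcases le_total i i' with h | h
  · have hyP : y ∈ peel X i := by
      apply peel_anti X h
      apply vert_subset
      rw [← e1']
      exact hsV i' hi' f
    apply slab_aux N M T hM hNTM hT j q g g' hg hg' h1 h2 x y
    · have := hsmax i hi g y hyP
      rwa [e1] at this
    · have := hsmax i hi g' y hyP
      rwa [e2] at this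
  · have hxP : x ∈ peel X i' := by
      apply peel_anti X h
      apply vert_subset
      rw [← e1]
      exact hsV i hi g
    have := slab_aux N M T hM hNTM hT j q f f' hf hf' h1' h2' y x (by
      have := hsmax i' hi' f x hxP
      rwa [e1'] at this) (by
      have := hsmax i' hi' f' x hxP
      rwa [e2'] at this)
    have s1 : |y j.succ - x j.succ| = |x j.succ - y j.succ| := abs_sub_comm _ _
    have s2 : |(y 0 - x 0) + (q / T : ℝ) * (y j.succ - x j.succ)| =
        |(x 0 - y 0) + (q / T : ℝ) * (x j.succ - y j.succ)| := by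
      rw [← abs_neg]
      congr 1
      ring
    have s3 : ∑ k ∈ Finset.univ.erase j, |y k.succ - x k.succ| =
        ∑ k ∈ Finset.univ.erase j, |x k.succ - y k.succ| :=
      Finset.sum_congr rfl (fun k _ => abs_sub_comm _ _)
    rw [s1, s2, s3]
    exact this

/-- coordinates used to count a class -/
noncomputable def Phi (ε : ℝ) (j : Fin m) (μ : ℝ) (y : E (m + 1)) : Fin m → ℤ :=
  fun k => if k = j then ⌊(y 0 + μ * y j.succ) / ε⌋ else ⌊y k.succ / ε⌋

include hsmax hsV hρ hsep hbox in
theorem card_cls (M T : ℕ) (hM : 1 ≤ M) (hNTM : N = T * M) (hT : 1 ≤ T)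
    (j : Fin m) (q : ℕ) (hq : q ≤ T) :
    (cls X N L s M j q).card ≤ (T * m + 1) * (⌈4 * (m + 2) / ρ⌉₊ + 1) ^ m := by
  classical
  set ε : ℝ := ρ / (m + 2) with hε
  have hεpos : 0 < ε := by rw [hε]; positivity
  have hT' : (0 : ℝ) < T := by exact_mod_cast hT
  set μ : ℝ := (q / T : ℝ) with hμ
  have hμ0 : 0 ≤ μ := by rw [hμ]; positivity
  have hμ1 : μ ≤ 1 := by
    rw [hμ, div_le_one hT']
    exact_mod_cast hq
  have hsub : ∀ x ∈ cls X N L s M j q, x ∈ X := fun x hx => by
    rw [cls, Finset.mem_filter] at hx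
    exact hx.1
  -- consequences of equal Phi
  have hPhi : ∀ x y : E (m + 1), Phi ε j μ x = Phi ε j μ y →
      |(y 0 - x 0) + μ * (y j.succ - x j.succ)| < ε ∧
      ∀ k, k ≠ j → |y k.succ - x k.succ| ≤ ε := by
    intro x y h
    constructor
    · have := congrFun h j
      simp only [Phi, if_true] at this
      have h2 := floor_close' hεpos this.symm
      have : (y 0 - x 0) + μ * (y j.succ - x j.succ) =
          (y 0 + μ * y j.succ) - (x 0 + μ * x j.succ) := by ring
      rw [this]
      exact h2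
    · intro k hk
      have := congrFun h k
      simp only [Phi, if_neg hk] at this
      exact floor_close hεpos this.symm
  have hfib : ∀ b ∈ (cls X N L s M j q).image (Phi ε j μ),
      ((cls X N L s M j q).filter (fun x => Phi ε j μ x = b)).card ≤ T * m + 1 := by
    intro b _
    set F := (cls X N L s M j q).filter (fun x => Phi ε j μ x = b) with hF
    have hinj : Set.InjOn (fun x : E (m + 1) => ⌊x j.succ / ε⌋) (F : Set (E (m + 1))) := by
      intro x hx y hy hxy
      simp only [hF, Finset.coe_filter, Set.mem_ofPred_eq] at hx hy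
      by_contra hne
      have h1 := hsep x (hsub x hx.1) y (hsub y hy.1) hne
      obtain ⟨h2, h3⟩ := hPhi y x (by rw [hy.2, hx.2])
      have h4 : |x j.succ - y j.succ| ≤ ε := floor_close hεpos hxy
      have h5 : |x 0 - y 0| < 2 * ε := by
        have : x 0 - y 0 = ((x 0 - y 0) + μ * (x j.succ - y j.succ)) - μ * (x j.succ - y j.succ) := by
          ring
        rw [this]
        refine (abs_sub _ _).trans_lt ?_
        have : |μ * (x j.succ - y j.succ)| ≤ ε := by
          rw [abs_mul, abs_of_nonneg hμ0]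
          nlinarith [abs_nonneg (x j.succ - y j.succ)]
        linarith
      have h6 := dist_le_sum x y
      have h7 : ∑ k : Fin m, |x k.succ - y k.succ| ≤ m * ε := by
        have : ∀ k ∈ (Finset.univ : Finset (Fin m)), |x k.succ - y k.succ| ≤ ε := by
          intro k _
          by_cases hk : k = j
          · subst hk; exact h4
          · exact h3 k hk
        refine (Finset.sum_le_sum this).trans ?_
        simp
      have h8 : ρ = (m + 2) * ε := by rw [hε]; field_simp
      linarith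
    rw [← Finset.card_image_of_injOn hinj]
    apply card_le_int
    intro u hu v hv
    obtain ⟨x, hx, rfl⟩ := Finset.mem_image.1 hu
    obtain ⟨y, hy, rfl⟩ := Finset.mem_image.1 hv
    rw [hF, Finset.mem_filter] at hx hy
    have h1 := slab X N L s hsV hsmax M T hM hNTM hT j q y x hy.1 hx.1
    obtain ⟨h2, h3⟩ := hPhi y x (by rw [hy.2, hx.2])
    have h4 : ∑ k ∈ Finset.univ.erase j, |x k.succ - y k.succ| ≤ (m - 1) * ε := by
      refine (Finset.sum_le_sum (fun k hk => h3 k (Finset.ne_of_mem_erase hk))).trans ?_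
      rw [Finset.sum_const, Finset.card_erase_of_mem (Finset.mem_univ j), Finset.card_univ,
        Fintype.card_fin, nsmul_eq_mul]
      have hm1 : 1 ≤ m := j.pos
      rw [Nat.cast_sub hm1, Nat.cast_one]
    have h5 : |x j.succ - y j.succ| ≤ T * (m * ε) := by
      refine h1.trans ?_
      apply mul_le_mul_of_nonneg_left _ hT'.le
      linarith
    apply floor_le_add hεpos (T * (m * ε)) _ _ h5
    push_cast
    rw [mul_div_assoc, mul_div_assoc, div_self hεpos.ne']
    linarith
  have h1 := Finset.card_le_mul_card_image (f := Phi ε j μ) (cls X N L s M j q) (T * m + 1) hfib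
  refine h1.trans ?_
  apply Nat.mul_le_mul_left
  apply card_le_int_box
  intro u hu v hv k
  obtain ⟨x, hx, rfl⟩ := Finset.mem_image.1 hu
  obtain ⟨y, hy, rfl⟩ := Finset.mem_image.1 hv
  have hx' := hsub x hx
  have hy' := hsub y hy
  have hD : 4 / ε ≤ (⌈4 * (m + 2) / ρ⌉₊ : ℝ) := by
    have : 4 / ε = 4 * (m + 2) / ρ := by rw [hε]; field_simp
    rw [this]
    exact Nat.le_ceil _
  by_cases hk : k = j
  · simp only [Phi, hk, if_true]
    apply floor_le_add hεpos 4 _ hD
    have : (x 0 + μ * x j.succ) - (y 0 + μ * y j.succ) = (x 0 - y 0) + μ * (x j.succ - y j.succ) := by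
      ring
    rw [this]
    refine (abs_add_le _ _).trans ?_
    have h2 := hbox x hx' y hy' 0
    have h3 : |μ * (x j.succ - y j.succ)| ≤ 2 := by
      rw [abs_mul, abs_of_nonneg hμ0]
      have := hbox x hx' y hy' j.succ
      nlinarith [abs_nonneg (x j.succ - y j.succ)]
    linarith
  · simp only [Phi, if_neg hk]
    apply floor_le_add hεpos 4 _ hD
    have := hbox x hx' y hy' k.succ
    linarith

open Classical in
/-- points with long cells -/
noncomputable def longPts (M : ℕ) : Finset (E (m + 1)) :=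
  X.filter (fun x => ∃ i < L, ∃ g ∈ grid m N, ∃ g' ∈ grid m N, s i g = x ∧ s i g' = x ∧
    ∃ j, g' j + 3 * M < g j)

include hsmax hsV hρ hsep hbox in
theorem card_longPts (M T : ℕ) (hM : 1 ≤ M) (hNTM : N = T * M) (hT : 1 ≤ T) :
    (longPts X N L s M).card ≤
      m * ((T + 1) * ((T * m + 1) * (⌈4 * (m + 2) / ρ⌉₊ + 1) ^ m)) := by
  classical
  have hsub : longPts X N L s M ⊆ (Finset.univ : Finset (Fin m)).biUnion (fun j =>
      (Finset.range (T + 1)).biUnion (fun q => cls X N L s M j q)) := by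
    intro x hx
    rw [longPts, Finset.mem_filter] at hx
    obtain ⟨hxX, i, hi, g, hg, g', hg', e1, e2, j, hj⟩ := hx
    rw [Finset.mem_biUnion]
    refine ⟨j, Finset.mem_univ _, ?_⟩
    rw [Finset.mem_biUnion]
    have hgN := mem_grid.1 hg j
    set r := g' j / M with hr
    have hr1 : r * M ≤ g' j := Nat.div_mul_le_self _ _
    have hr2 : g' j < (r + 1) * M := by
      rw [Nat.succ_mul]
      exact Nat.lt_div_mul_add (by omega)
    refine ⟨r + 2, ?_, ?_⟩
    · rw [Finset.mem_range]
      have h1 : (r + 3) * M < T * M + M := by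
        have : (r + 3) * M = r * M + 3 * M := by ring
        omega
      have h2 : (r + 3) * M < (T + 1) * M := by
        have : (T + 1) * M = T * M + M := by ring
        omega
      have h3 := Nat.lt_of_mul_lt_mul_right h2
      omega
    · rw [cls, Finset.mem_filter]
      refine ⟨hxX, i, hi, g, hg, g', hg', e1, e2, ?_, ?_⟩
      · have : (r + 2) * M = (r + 1) * M + M := by ring
        omega
      · have : (r + 2) * M + M = r * M + 3 * M := by ring
        omega
  refine (Finset.card_le_card hsub).trans ?_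
  refine (Finset.card_biUnion_le_card_mul _ _ _ (fun j _ => ?_)).trans
    (by rw [Finset.card_univ, Fintype.card_fin])
  refine (Finset.card_biUnion_le_card_mul _ _ _ (fun q hq => ?_)).trans
    (by rw [Finset.card_range])
  rw [Finset.mem_range] at hq
  exact card_cls X N L s hsV hsmax ρ hρ hsep hbox M T hM hNTM hT j q (by omega)

open Classical in
include hsmax hsV in
theorem sum_cut (hret : ∀ i, i < L → NoRet (s i)) (M : ℕ) (j : Fin m) :
    ∑ i ∈ Finset.range L, (cut N (s i) j).card ≤
      X.card * (3 * M + 1) ^ (m - 1) + (longPts X N L s M).card * (N + 1) ^ (m - 1) := by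
  classical
  set S := longPts X N L s M with hS
  set F : E (m + 1) → ℕ := fun x => if x ∈ S then (N + 1) ^ (m - 1) else (3 * M + 1) ^ (m - 1)
    with hF
  have h1 : ∀ i ∈ Finset.range L, (cut N (s i) j).card ≤ ∑ x ∈ vert (peel X i), F x := by
    intro i hi
    rw [Finset.mem_range] at hi
    refine (card_cut_le N (s i) (hret i hi) j (vert (peel X i)) (hsV i hi)).trans ?_
    apply Finset.sum_le_sum
    intro x hx
    simp only [hF]
    split_ifs with hxS
    · apply card_image_le_box
      intro g hg g' hg' k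
      have := mem_grid.1 (Finset.mem_filter.1 hg).1 k
      omega
    · apply card_image_le_box
      intro g hg g' hg' k
      by_contra hcon
      apply hxS
      rw [hS, longPts, Finset.mem_filter]
      rw [Finset.mem_filter] at hg hg'
      exact ⟨peel_subset X i (vert_subset _ hx), i, hi, g, hg.1, g', hg'.1, hg.2, hg'.2, k,
        by omega⟩
  refine (Finset.sum_le_sum h1).trans ?_
  rw [← Finset.sum_biUnion]
  · have hsubX : (Finset.range L).biUnion (fun i => vert (peel X i)) ⊆ X := by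
      intro x hx
      rw [Finset.mem_biUnion] at hx
      obtain ⟨i, _, hx⟩ := hx
      exact peel_subset X i (vert_subset _ hx)
    refine (Finset.sum_le_sum_of_subset hsubX).trans ?_
    have h2 : ∀ x ∈ X, F x ≤ (3 * M + 1) ^ (m - 1) + if x ∈ S then (N + 1) ^ (m - 1) else 0 := by
      intro x _
      simp only [hF]
      split_ifs <;> omega
    refine (Finset.sum_le_sum h2).trans ?_
    rw [Finset.sum_add_distrib, Finset.sum_const, smul_eq_mul, Finset.sum_ite_mem,
      Finset.sum_const, smul_eq_mul]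
    apply Nat.add_le_add_left
    apply Nat.mul_le_mul_right
    exact Finset.card_le_card Finset.inter_subset_right
  · intro i _ i' _ hne
    rcases lt_or_gt_of_ne hne with h | h
    · exact vert_disjoint X h
    · exact (vert_disjoint X h).symm

open Classical in
include hsmax hsV hρ hsep hbox in
theorem main_ineq_aux (hret : ∀ i, i < L → NoRet (s i)) (M T : ℕ) (hM : 1 ≤ M)
    (hNTM : N = T * M) (hT : 1 ≤ T) :
    (L : ℝ) * (N - 1 : ℕ) ^ m ≤ (N - 1 : ℕ) ^ m * (1 + 2 * N * (m + 1) * (2 * m + 1) / ρ) +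
      2 * (m * (X.card * (3 * M + 1) ^ (m - 1) +
        (m * ((T + 1) * ((T * m + 1) * (⌈4 * (m + 2) / ρ⌉₊ + 1 : ℕ) ^ m))) * (N + 1) ^ (m - 1))) := by
  classical
  have hN : 1 ≤ N := by rw [hNTM]; exact Nat.mul_pos hT hM
  have h1 : ∀ g ∈ inner m N, (L : ℝ) ≤ (1 + 2 * N * (m + 1) * (2 * m + 1) / ρ) +
      (((Finset.range L).filter (fun i => ¬ Unc (s i) g)).card : ℝ) := by
    intro g hg
    have e1 := unc_count X N L s hsV hsmax ρ hρ hsep hbox hN g hg
    have e2 := Finset.card_filter_add_card_filter_not (s := Finset.range L)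
      (fun i => Unc (s i) g)
    rw [Finset.card_range] at e2
    have e3 : (L : ℝ) = (((Finset.range L).filter (fun i => Unc (s i) g)).card : ℝ) +
        (((Finset.range L).filter (fun i => ¬ Unc (s i) g)).card : ℝ) := by
      exact_mod_cast e2.symm
    linarith
  have h2 := Finset.sum_le_sum h1
  rw [Finset.sum_const, Finset.sum_add_distrib, Finset.sum_const, nsmul_eq_mul, nsmul_eq_mul,
    card_inner] at h2
  have h3 : ∑ g ∈ inner m N, ((Finset.range L).filter (fun i => ¬ Unc (s i) g)).card ≤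
      2 * (m * (X.card * (3 * M + 1) ^ (m - 1) +
        (m * ((T + 1) * ((T * m + 1) * (⌈4 * (m + 2) / ρ⌉₊ + 1) ^ m))) * (N + 1) ^ (m - 1))) := by
    have e1 : ∑ g ∈ inner m N, ((Finset.range L).filter (fun i => ¬ Unc (s i) g)).card =
        ∑ i ∈ Finset.range L, ((inner m N).filter (fun g => ¬ Unc (s i) g)).card := by
      simp only [Finset.card_filter]
      exact Finset.sum_comm
    rw [e1]
    have e2 : ∑ i ∈ Finset.range L, ((inner m N).filter (fun g => ¬ Unc (s i) g)).card ≤
        ∑ i ∈ Finset.range L, 2 * ∑ j, (cut N (s i) j).card :=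
      Finset.sum_le_sum (fun i _ => card_cutstar_le N (s i))
    refine e2.trans ?_
    rw [← Finset.mul_sum]
    apply Nat.mul_le_mul_left
    rw [Finset.sum_comm]
    have e3 : ∀ j ∈ (Finset.univ : Finset (Fin m)), ∑ i ∈ Finset.range L, (cut N (s i) j).card ≤
        (X.card * (3 * M + 1) ^ (m - 1) +
        (m * ((T + 1) * ((T * m + 1) * (⌈4 * (m + 2) / ρ⌉₊ + 1) ^ m))) * (N + 1) ^ (m - 1)) := by
      intro j _
      refine (sum_cut X N L s hsV hsmax hret M j).trans ?_
      apply Nat.add_le_add_left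
      apply Nat.mul_le_mul_right
      exact card_longPts X N L s hsV hsmax ρ hρ hsep hbox M T hM hNTM hT
    refine (Finset.sum_le_sum e3).trans ?_
    rw [Finset.sum_const, Finset.card_univ, Fintype.card_fin, smul_eq_mul]
  have h4 : (∑ g ∈ inner m N, (((Finset.range L).filter (fun i => ¬ Unc (s i) g)).card : ℝ)) ≤
      2 * (m * (X.card * (3 * M + 1) ^ (m - 1) +
        (m * ((T + 1) * ((T * m + 1) * (⌈4 * (m + 2) / ρ⌉₊ + 1 : ℕ) ^ m))) * (N + 1) ^ (m - 1))) := by
    exact_mod_cast h3
  push_cast at h2 h4 ⊢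
  linarith

end Main

/-- The main inequality for separated sets. -/
theorem main_ineq {m : ℕ} (X : Finset (E (m + 1)))
    (ρ : ℝ) (hρ : 0 < ρ) (hsep : ∀ x ∈ X, ∀ y ∈ X, x ≠ y → ρ ≤ dist x y)
    (hbox : ∀ x ∈ X, ∀ y ∈ X, ∀ k, |x k - y k| ≤ 2) (M T : ℕ) (hM : 1 ≤ M) (hT : 1 ≤ T) :
    (layers X : ℝ) * (T * M - 1 : ℕ) ^ m ≤
      (T * M - 1 : ℕ) ^ m * (1 + 2 * (T * M : ℕ) * (m + 1) * (2 * m + 1) / ρ) +
      2 * (m * (X.card * (3 * M + 1) ^ (m - 1) +
        (m * ((T + 1) * ((T * m + 1) * (⌈4 * (m + 2) / ρ⌉₊ + 1 : ℕ) ^ m))) *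
          ((T * M : ℕ) + 1) ^ (m - 1))) := by
  classical
  have h1 : ∀ i, ∃ s : (Fin m → ℕ) → E (m + 1), i < layers X → ((∀ g, s g ∈ vert (peel X i)) ∧
      (∀ g, ∀ y ∈ peel X i, lf (T * M) g y ≤ lf (T * M) g (s g)) ∧ NoRet s) := by
    intro i
    by_cases hi : i < layers X
    · obtain ⟨s, hs⟩ := exists_sel (T * M) (peel X i) (peel_nonempty_of_lt X hi)
      exact ⟨s, fun _ => hs⟩
    · exact ⟨fun _ => 0, fun h => (hi h).elim⟩
  choose s hs using h1
  exact main_ineq_aux X (T * M) (layers X) s (fun i hi => (hs i hi).1) (fun i hi => (hs i hi).2.1)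
    ρ hρ hsep hbox (fun i hi => (hs i hi).2.2) M T hM rfl hT

end Pool.Agent.R145.Peel
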