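import Mathlib
import Pool.Agent.R145.Peel.Long

/-!
Choice of parameters.
-/

namespace Pool.Agent.R145.Peel

open Finset

theorem numeric {p : ℕ} (X : Finset (E (p + 1 + 1))) (c0 : ℝ) (hc0 : 0 < c0) (hc1 : c0 ≤ 1)
    (u : ℝ) (hu : 1 ≤ u) (hn : (X.card : ℝ) = u ^ (2 * (p + 2) ^ 2))
    (hsep : ∀ x ∈ X, ∀ y ∈ X, x ≠ y → c0 / u ^ (2 * (p + 2)) ≤ dist x y)
    (hbox : ∀ x ∈ X, ∀ y ∈ X, ∀ k, |x k - y k| ≤ 2) :
    (layers X : ℝ) ≤ (1 + 12 * (p + 2) * (2 * p + 3) / c0 +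
      2 * (p + 1) * ((4 ^ p + 12 * (p + 1) ^ 2 * 2 ^ p * (6 * (p + 3) / c0) ^ (p + 1)) *
        2 ^ (p + 1))) * u ^ (p ^ 2 + 4 * p + 6) := by
  have hu0 : 0 < u := by linarith
  set ρ : ℝ := c0 / u ^ (2 * (p + 2)) with hρdef
  have hρ : 0 < ρ := by rw [hρdef]; positivity
  have hupow : ∀ k : ℕ, 1 ≤ u ^ k := fun k => one_le_pow₀ hu
  have hρ1 : ρ ≤ 1 := by
    rw [hρdef, div_le_one (by positivity)]
    exact hc1.trans (hupow _)
  set T : ℕ := ⌈u ^ 2⌉₊ + 1 with hT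
  set M : ℕ := ⌈u ^ (p ^ 2 + 2 * p)⌉₊ with hM
  have hT1 : u ^ 2 ≤ T := by
    rw [hT]; push_cast
    have := Nat.le_ceil (u ^ 2)
    linarith
  have hT3 : (T : ℝ) ≤ 3 * u ^ 2 := by
    rw [hT]; push_cast
    have := (Nat.ceil_lt_add_one (show 0 ≤ u ^ 2 by positivity)).le
    have := hupow 2
    linarith
  have hM1 : u ^ (p ^ 2 + 2 * p) ≤ M := Nat.le_ceil _
  have hM2 : (M : ℝ) ≤ 2 * u ^ (p ^ 2 + 2 * p) := by
    have := (Nat.ceil_lt_add_one (show 0 ≤ u ^ (p ^ 2 + 2 * p) by positivity)).le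
    have := hupow (p ^ 2 + 2 * p)
    linarith
  have hMr : (1 : ℝ) ≤ M := (hupow _).trans hM1
  have hMn : 1 ≤ M := by exact_mod_cast hMr
  have hTn : 2 ≤ T := by
    rw [hT]
    have : 1 ≤ ⌈u ^ 2⌉₊ := by
      rw [Nat.one_le_ceil_iff]; positivity
    omega
  have hTr : (2 : ℝ) ≤ T := by exact_mod_cast hTn
  have hmain := main_ineq X ρ hρ hsep hbox M T hMn (by omega)
  have hTM : 2 ≤ T * M := by nlinarith
  set N : ℝ := (T : ℝ) * M with hN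
  have hN2 : 2 ≤ N := by rw [hN]; nlinarith
  set Z : ℝ := ((T * M - 1 : ℕ) : ℝ) with hZ
  have hZN : Z = N - 1 := by
    rw [hZ, Nat.cast_sub (by omega)]; push_cast; rfl
  have hZpos : 0 < Z := by rw [hZN]; linarith
  have hNZ : N ≤ 2 * Z := by rw [hZN]; linarith
  have hNN : ((T * M : ℕ) : ℝ) = N := by push_cast; rfl
  rw [hNN] at hmain
  simp only [Nat.add_sub_cancel] at hmain
  set e : ℕ := p ^ 2 + 4 * p + 6 with he
  have hue : 1 ≤ u ^ e := hupow e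
  have hNp : N ^ (p + 1) ≤ 2 ^ (p + 1) * Z ^ (p + 1) := by
    rw [← mul_pow]
    exact pow_le_pow_left₀ (by linarith) hNZ _
  -- term a
  have ha : 2 * N * ((p + 1 : ℕ) + 1) * (2 * (p + 1 : ℕ) + 1) / ρ ≤
      12 * (p + 2) * (2 * p + 3) / c0 * u ^ e := by
    have h1 : N ≤ (3 * u ^ 2) * (2 * u ^ (p ^ 2 + 2 * p)) := by
      rw [hN]
      exact mul_le_mul hT3 hM2 (by positivity) (by positivity)
    have h2 : u ^ e = u ^ 2 * u ^ (p ^ 2 + 2 * p) * u ^ (2 * (p + 2)) := by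
      rw [← pow_add, ← pow_add, he]
      congr 1
      ring
    have h3 : 2 * N * (((p + 1 : ℕ) : ℝ) + 1) * (2 * ((p + 1 : ℕ) : ℝ) + 1) / ρ =
        2 * (p + 2) * (2 * p + 3) / c0 * u ^ (2 * (p + 2)) * N := by
      rw [hρdef]; push_cast; field_simp; ring
    rw [h3, h2]
    calc 2 * (p + 2) * (2 * p + 3) / c0 * u ^ (2 * (p + 2)) * N
        ≤ 2 * (p + 2) * (2 * p + 3) / c0 * u ^ (2 * (p + 2)) *
          ((3 * u ^ 2) * (2 * u ^ (p ^ 2 + 2 * p))) := by gcongr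
      _ = 12 * (p + 2) * (2 * p + 3) / c0 * (u ^ 2 * u ^ (p ^ 2 + 2 * p) * u ^ (2 * (p + 2))) := by
          ring
  -- term b
  have hb : (X.card : ℝ) * (3 * M + 1) ^ p ≤ 4 ^ p * u ^ e * (2 ^ (p + 1) * Z ^ (p + 1)) := by
    have h1 : (3 * (M : ℝ) + 1) ^ p ≤ 4 ^ p * M ^ p := by
      rw [← mul_pow]
      exact pow_le_pow_left₀ (by positivity) (by linarith) _
    have h2 : (X.card : ℝ) ≤ u ^ e * (T ^ (p + 1) * M) := by
      rw [hn]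
      have h3 : u ^ (2 * (p + 2) ^ 2) = u ^ e * ((u ^ 2) ^ (p + 1) * u ^ (p ^ 2 + 2 * p)) := by
        rw [← pow_mul, ← pow_add, ← pow_add, he]
        congr 1
        ring
      rw [h3]
      gcongr
    calc (X.card : ℝ) * (3 * M + 1) ^ p ≤ (u ^ e * (T ^ (p + 1) * M)) * (4 ^ p * M ^ p) := by
          gcongr
      _ = 4 ^ p * u ^ e * N ^ (p + 1) := by rw [hN]; ring
      _ ≤ 4 ^ p * u ^ e * (2 ^ (p + 1) * Z ^ (p + 1)) := by gcongr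
  -- term c
  have hc : ((p + 1 : ℕ) * (((T : ℝ) + 1) * (((T : ℝ) * (p + 1 : ℕ) + 1) *
      (⌈4 * (((p + 1 : ℕ) : ℝ) + 2) / ρ⌉₊ + 1 : ℕ) ^ (p + 1)))) * (N + 1) ^ p ≤
      12 * (p + 1) ^ 2 * 2 ^ p * (6 * (p + 3) / c0) ^ (p + 1) * u ^ e *
        (2 ^ (p + 1) * Z ^ (p + 1)) := by
    have h1 : (T : ℝ) + 1 ≤ 2 * T := by linarith
    have h2 : (T : ℝ) * (p + 1 : ℕ) + 1 ≤ 2 * T * (p + 1) := by
      push_cast
      have : (0 : ℝ) ≤ p := Nat.cast_nonneg _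
      nlinarith
    have h3 : ((⌈4 * (((p + 1 : ℕ) : ℝ) + 2) / ρ⌉₊ + 1 : ℕ) : ℝ) ≤
        6 * (p + 3) / c0 * u ^ (2 * (p + 2)) := by
      have e1 := (Nat.ceil_lt_add_one (show 0 ≤ 4 * (((p + 1 : ℕ) : ℝ) + 2) / ρ by positivity)).le
      have e2 : (1 : ℝ) ≤ (p + 3) / ρ := by
        rw [le_div_iff₀ hρ]
        have : (0 : ℝ) ≤ p := Nat.cast_nonneg _
        linarith
      have e3 : 6 * ((p : ℝ) + 3) / c0 * u ^ (2 * (p + 2)) = 6 * ((p + 3) / ρ) := by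
        rw [hρdef]; field_simp
      rw [e3]
      have e4 : 4 * (((p + 1 : ℕ) : ℝ) + 2) / ρ = 4 * ((p + 3) / ρ) := by
        push_cast; ring
      rw [e4] at e1
      push_cast at e1 ⊢
      rw [show (4 * ((p : ℝ) + 1 + 2) / ρ) = 4 * ((p + 3) / ρ) by ring]
      linarith
    have h4 : N + 1 ≤ 2 * N := by linarith
    have h5 : (T : ℝ) * (u ^ (2 * (p + 2))) ^ (p + 1) ≤ 3 * u ^ e * M := by
      calc (T : ℝ) * (u ^ (2 * (p + 2))) ^ (p + 1) ≤ (3 * u ^ 2) * (u ^ (2 * (p + 2))) ^ (p + 1) := by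
            gcongr
        _ = 3 * (u ^ 2 * (u ^ (2 * (p + 2))) ^ (p + 1)) := by ring
        _ = 3 * (u ^ e * u ^ (p ^ 2 + 2 * p)) := by
            rw [← pow_mul, ← pow_add, ← pow_add, he]
            congr 2
            ring
        _ = 3 * u ^ e * u ^ (p ^ 2 + 2 * p) := by ring
        _ ≤ 3 * u ^ e * M := by gcongr
    calc ((p + 1 : ℕ) * (((T : ℝ) + 1) * (((T : ℝ) * (p + 1 : ℕ) + 1) *
        (⌈4 * (((p + 1 : ℕ) : ℝ) + 2) / ρ⌉₊ + 1 : ℕ) ^ (p + 1)))) * (N + 1) ^ p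
        ≤ ((p + 1) * ((2 * T) * ((2 * T * (p + 1)) *
        (6 * (p + 3) / c0 * u ^ (2 * (p + 2))) ^ (p + 1)))) * (2 * N) ^ p := by
          have : (((p + 1 : ℕ) : ℝ)) = p + 1 := by push_cast; ring
          rw [this] at h2 h3 ⊢
          gcongr
      _ = 4 * (p + 1) ^ 2 * 2 ^ p * (6 * (p + 3) / c0) ^ (p + 1) *
          ((T : ℝ) * (u ^ (2 * (p + 2))) ^ (p + 1)) * (T * N ^ p) := by
          rw [mul_pow, mul_pow]; ring
      _ ≤ 4 * (p + 1) ^ 2 * 2 ^ p * (6 * (p + 3) / c0) ^ (p + 1) *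
          (3 * u ^ e * M) * (T * N ^ p) := by gcongr
      _ = 12 * (p + 1) ^ 2 * 2 ^ p * (6 * (p + 3) / c0) ^ (p + 1) * u ^ e * N ^ (p + 1) := by
          rw [pow_succ N p]
          nth_rewrite 3 [hN]
          ring
      _ ≤ _ := by gcongr
  have hfin : (layers X : ℝ) * Z ^ (p + 1) ≤ ((1 + 12 * (p + 2) * (2 * p + 3) / c0 +
      2 * (p + 1) * ((4 ^ p + 12 * (p + 1) ^ 2 * 2 ^ p * (6 * (p + 3) / c0) ^ (p + 1)) *
        2 ^ (p + 1))) * u ^ e) * Z ^ (p + 1) := by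
    refine hmain.trans ?_
    have hpp : (((p + 1 : ℕ) : ℝ)) = p + 1 := by push_cast; ring
    have hZp : 0 < Z ^ (p + 1) := by positivity
    have e1 : Z ^ (p + 1) * (1 + 2 * N * (((p + 1 : ℕ) : ℝ) + 1) * (2 * ((p + 1 : ℕ) : ℝ) + 1) / ρ) ≤
        Z ^ (p + 1) * ((1 + 12 * (p + 2) * (2 * p + 3) / c0) * u ^ e) := by
      apply mul_le_mul_of_nonneg_left _ hZp.le
      have : (1 + 12 * ((p : ℝ) + 2) * (2 * p + 3) / c0) * u ^ e = u ^ e +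
        12 * (p + 2) * (2 * p + 3) / c0 * u ^ e := by ring
      rw [this]
      linarith
    have e2 : 2 * (((p + 1 : ℕ) : ℝ) * ((X.card : ℝ) * (3 * M + 1) ^ p +
        ((p + 1 : ℕ) * (((T : ℝ) + 1) * (((T : ℝ) * (p + 1 : ℕ) + 1) *
        (⌈4 * (((p + 1 : ℕ) : ℝ) + 2) / ρ⌉₊ + 1 : ℕ) ^ (p + 1)))) * (N + 1) ^ p)) ≤
        2 * ((p + 1) * (4 ^ p * u ^ e * (2 ^ (p + 1) * Z ^ (p + 1)) +
          12 * (p + 1) ^ 2 * 2 ^ p * (6 * (p + 3) / c0) ^ (p + 1) * u ^ e *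
        (2 ^ (p + 1) * Z ^ (p + 1)))) := by
      have := add_le_add hb hc
      rw [hpp] at this ⊢
      have hp1 : (0 : ℝ) ≤ p + 1 := by positivity
      exact mul_le_mul_of_nonneg_left (mul_le_mul_of_nonneg_left this hp1) (by norm_num)
    refine (add_le_add e1 e2).trans (le_of_eq ?_)
    ring
  exact le_of_mul_le_mul_right hfin (by positivity)

end Pool.Agent.R145.Peel
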