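import Mathlib
import Pool.Agent.R145.Peel.Num

/-!
Evenly distributed sets: the upper bound for layer numbers, and existence.
-/

namespace Pool.Agent.R145.Peel

open Finset MeasureTheory

open Classical in
/-- `X` is `α`-evenly distributed, closed balls being used in the counting condition. -/
def EvenlyClosed {d : ℕ} (α : ℝ) (X : Finset (E d)) : Prop :=
  (∃ c : E d, (X : Set (E d)) ⊆ Metric.closedBall c 1) ∧
  ∀ (c : E d) (r : ℝ), 0 < r →
    ((X.filter (fun x => x ∈ Metric.closedBall c r)).card : ℤ) ≤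
      ⌈α * X.card * (volume (Metric.closedBall c r)).toReal⌉

open Classical in
/-- `X` is `α`-evenly distributed, open balls being used in the counting condition. -/
def EvenlyOpen {d : ℕ} (α : ℝ) (X : Finset (E d)) : Prop :=
  (∃ c : E d, (X : Set (E d)) ⊆ Metric.closedBall c 1) ∧
  ∀ (c : E d) (r : ℝ), 0 < r →
    ((X.filter (fun x => x ∈ Metric.ball c r)).card : ℤ) ≤
      ⌈α * X.card * (volume (Metric.ball c r)).toReal⌉

theorem EvenlyClosed.toOpen {d : ℕ} {α : ℝ} (hα : 0 ≤ α) {X : Finset (E d)}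
    (h : EvenlyClosed α X) : EvenlyOpen α X := by
  classical
  refine ⟨h.1, fun c r hr => ?_⟩
  obtain ⟨r', hr'0, hr'r, hr'⟩ : ∃ r', 0 < r' ∧ r' < r ∧
      ∀ x ∈ X.filter (fun x => x ∈ Metric.ball c r), dist x c ≤ r' := by
    rcases (X.filter (fun x => x ∈ Metric.ball c r)).eq_empty_or_nonempty with h0 | h0
    · exact ⟨r / 2, by linarith, by linarith, by rw [h0]; simp⟩
    · obtain ⟨y, hy, hmax⟩ := Finset.exists_max_image _ (fun x => dist x c) h0
      have hy' : dist y c < r := by
        have := (Finset.mem_filter.1 hy).2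
        rwa [Metric.mem_ball] at this
      refine ⟨max (r / 2) (dist y c), lt_max_of_lt_left (by linarith),
        max_lt (by linarith) hy', fun x hx => (hmax x hx).trans (le_max_right _ _)⟩
  have h1 := h.2 c r' hr'0
  have h2 : ((X.filter (fun x => x ∈ Metric.ball c r)).card : ℤ) ≤
      ((X.filter (fun x => x ∈ Metric.closedBall c r')).card : ℤ) := by
    have : X.filter (fun x => x ∈ Metric.ball c r) ⊆
        X.filter (fun x => x ∈ Metric.closedBall c r') := by
      intro x hx
      rw [Finset.mem_filter]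
      exact ⟨(Finset.mem_filter.1 hx).1, Metric.mem_closedBall.2 (hr' x hx)⟩
    exact_mod_cast Finset.card_le_card this
  refine (h2.trans h1).trans ?_
  apply Int.ceil_le_ceil
  apply mul_le_mul_of_nonneg_left _ (by positivity)
  apply ENNReal.toReal_mono measure_ball_lt_top.ne
  apply measure_mono
  exact Metric.closedBall_subset_ball hr'r

/-- volume of the unit ball -/
noncomputable def om (d : ℕ) : ℝ := (volume (Metric.ball (0 : E d) 1)).toReal

theorem om_pos (d : ℕ) : 0 < om d := by
  rw [om]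
  exact ENNReal.toReal_pos (Metric.measure_ball_pos volume _ one_pos).ne' measure_ball_lt_top.ne

theorem vol_ball {d : ℕ} (c : E d) {r : ℝ} (hr : 0 < r) :
    (volume (Metric.ball c r)).toReal = r ^ d * om d := by
  rw [Measure.addHaar_ball_of_pos volume c hr, ENNReal.toReal_mul,
    ENNReal.toReal_ofReal (by positivity), om, finrank_euclideanSpace_fin]

theorem vol_closedBall {d : ℕ} (c : E d) {r : ℝ} (hr : 0 < r) :
    (volume (Metric.closedBall c r)).toReal = r ^ d * om d := by
  rw [Measure.addHaar_closedBall volume c hr.le, ENNReal.toReal_mul,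
    ENNReal.toReal_ofReal (by positivity), om, finrank_euclideanSpace_fin]

theorem sep_of_evenly {d : ℕ} {α : ℝ} {X : Finset (E d)} (h : EvenlyOpen α X) {r : ℝ}
    (hr : 0 < r) (hle : α * X.card * (r ^ d * om d) ≤ 1) :
    ∀ x ∈ X, ∀ y ∈ X, x ≠ y → 2 * r ≤ dist x y := by
  classical
  intro x hx y hy hne
  by_contra hcon
  push Not at hcon
  have h1 := h.2 (midpoint ℝ x y) r hr
  rw [vol_ball _ hr] at h1
  have h2 : ⌈α * X.card * (r ^ d * om d)⌉ ≤ 1 := by
    rw [Int.ceil_le]
    push_cast
    exact hle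
  have h3 : ({x, y} : Finset (E d)) ⊆ X.filter (fun z => z ∈ Metric.ball (midpoint ℝ x y) r) := by
    intro z hz
    rw [Finset.mem_insert, Finset.mem_singleton] at hz
    rw [Finset.mem_filter, Metric.mem_ball]
    rcases hz with rfl | rfl
    · refine ⟨hx, ?_⟩
      rw [dist_left_midpoint, Real.norm_eq_abs, abs_of_pos (by norm_num : (0 : ℝ) < 2)]
      linarith
    · refine ⟨hy, ?_⟩
      rw [dist_right_midpoint, Real.norm_eq_abs, abs_of_pos (by norm_num : (0 : ℝ) < 2)]
      linarith
  have h4 := Finset.card_le_card h3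
  rw [Finset.card_pair hne] at h4
  have h5 : (2 : ℤ) ≤ ((X.filter (fun z => z ∈ Metric.ball (midpoint ℝ x y) r)).card : ℤ) := by
    exact_mod_cast h4
  have := (h5.trans h1).trans h2
  norm_num at this

theorem abs_coord_le {d : ℕ} (x y : E d) (k : Fin d) : |x k - y k| ≤ dist x y := by
  have h := PiLp.norm_apply_le (x - y) k
  rw [dist_eq_norm]
  simpa using h

theorem box_of_evenly {d : ℕ} {α : ℝ} {X : Finset (E d)} (h : EvenlyOpen α X) :
    ∀ x ∈ X, ∀ y ∈ X, ∀ k, |x k - y k| ≤ 2 := by
  intro x hx y hy k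
  obtain ⟨c, hc⟩ := h.1
  refine (abs_coord_le x y k).trans ?_
  have h1 := Metric.mem_closedBall.1 (hc hx)
  have h2 := Metric.mem_closedBall.1 (hc hy)
  have h3 := dist_triangle_right x y c
  linarith

theorem upper_bound (p : ℕ) (α : ℝ) (hα : 0 < α) : ∃ C : ℝ, 0 < C ∧
    ∀ X : Finset (E (p + 2)), EvenlyOpen α X →
      (layers X : ℝ) ≤ C * (X.card : ℝ) ^ (1 / 2 + 1 / ((p : ℝ) + 2) ^ 2) := by
  set ω := om (p + 2) with hω
  have hωpos : 0 < ω := om_pos _
  set c0 : ℝ := min 1 (1 / (α * ω)) with hc0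
  have hc0pos : 0 < c0 := lt_min one_pos (by positivity)
  have hc01 : c0 ≤ 1 := min_le_left _ _
  have hc02 : α * ω * c0 ≤ 1 := by
    have : c0 ≤ 1 / (α * ω) := min_le_right _ _
    rw [le_div_iff₀ (by positivity)] at this
    linarith
  refine ⟨(1 + 12 * (p + 2) * (2 * p + 3) / c0 +
      2 * (p + 1) * ((4 ^ p + 12 * (p + 1) ^ 2 * 2 ^ p * (6 * (p + 3) / c0) ^ (p + 1)) *
        2 ^ (p + 1))), by positivity, fun X hX => ?_⟩
  rcases Nat.eq_zero_or_pos X.card with h0 | hpos
  · have : layers X = 0 := Nat.le_zero.1 (h0 ▸ layers_le_card X)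
    rw [this]
    push_cast
    positivity
  have hn1 : (1 : ℝ) ≤ X.card := by exact_mod_cast hpos
  set n : ℝ := (X.card : ℝ) with hn
  have hn0 : (0 : ℝ) < n := by linarith
  set D : ℝ := 2 * ((p : ℝ) + 2) ^ 2 with hD
  have hDpos : 0 < D := by rw [hD]; positivity
  set u : ℝ := n ^ (1 / D) with hu
  have hu1 : 1 ≤ u := Real.one_le_rpow hn1 (by positivity)
  have hu0 : 0 < u := by linarith
  have hupow : ∀ k : ℕ, u ^ k = n ^ ((k : ℝ) / D) := by
    intro k
    rw [hu, ← Real.rpow_natCast, ← Real.rpow_mul hn0.le]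
    congr 1
    ring
  have hun : n = u ^ (2 * (p + 2) ^ 2) := by
    rw [hupow]
    have h1 : (((2 * (p + 2) ^ 2 : ℕ) : ℝ)) = D := by
      rw [hD]; push_cast; ring
    rw [h1, div_self hDpos.ne', Real.rpow_one]
  have hsep : ∀ x ∈ X, ∀ y ∈ X, x ≠ y → c0 / u ^ (2 * (p + 2)) ≤ dist x y := by
    intro x hx y hy hne
    have hr : 0 < c0 / u ^ (2 * (p + 2)) / 2 := half_pos (div_pos hc0pos (pow_pos hu0 _))
    have := sep_of_evenly hX hr (by
      rw [← hn, ← hω]
      have e1 : (c0 / u ^ (2 * (p + 2)) / 2) ^ (p + 2) = (c0 / 2) ^ (p + 2) / n := by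
        rw [hun, div_right_comm, div_pow, ← pow_mul]
        congr 2
        ring
      rw [e1]
      have e2 : (c0 / 2) ^ (p + 2) ≤ c0 := by
        have : (c0 / 2) ^ (p + 2) ≤ (c0 / 2) ^ 1 :=
          pow_le_pow_of_le_one (by positivity) (by linarith) (by omega)
        linarith
      calc α * n * ((c0 / 2) ^ (p + 2) / n * ω) = α * ω * (c0 / 2) ^ (p + 2) := by
            field_simp
        _ ≤ α * ω * c0 := by gcongr
        _ ≤ 1 := hc02) x hx y hy hne
    linarith
  have hfin := numeric X c0 hc0pos hc01 u hu1 (by rw [← hn]; exact hun) hsep (box_of_evenly hX)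
  have he : u ^ (p ^ 2 + 4 * p + 6) = n ^ (1 / 2 + 1 / ((p : ℝ) + 2) ^ 2) := by
    rw [hupow]
    congr 1
    rw [hD]
    push_cast
    field_simp
    ring
  rw [he] at hfin
  exact hfin

/-- arbitrarily large evenly distributed sets -/
theorem exists_evenly (d : ℕ) (hd : 1 ≤ d) : ∃ α : ℝ, 1 < α ∧ ∀ k : ℕ,
    ∃ X : Finset (E d), k ≤ X.card ∧ EvenlyClosed α X := by
  classical
  have hom := om_pos d
  refine ⟨(4 * d) ^ d / om d + 2, by
    have : 0 ≤ (4 * (d : ℝ)) ^ d / om d := by positivity
    linarith, fun k => ?_⟩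
  set α : ℝ := (4 * d) ^ d / om d + 2 with hα
  have hd0 : (0 : ℝ) < d := by exact_mod_cast hd
  have hαpos : 0 < α := by rw [hα]; positivity
  set M : ℕ := k + 1 with hM
  set s : ℝ := 1 / (M * d) with hs
  have hMpos : (0 : ℝ) < M := by rw [hM]; push_cast; positivity
  have hspos : 0 < s := by rw [hs]; positivity
  set φ : (Fin d → ℤ) → E d := fun f => WithLp.toLp 2 (fun j => s * (f j : ℝ)) with hφ
  have hφinj : Function.Injective φ := by
    intro f g h
    funext j
    have : φ f j = φ g j := by rw [h]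
    simp only [hφ] at this
    have := mul_left_cancel₀ hspos.ne' this
    exact_mod_cast this
  set B : Finset (Fin d → ℤ) := Fintype.piFinset (fun _ => Finset.Ico (0 : ℤ) M) with hB
  have hBcard : B.card = M ^ d := by
    rw [hB, Fintype.card_piFinset]
    simp
  have hXcard : (B.image φ).card = M ^ d := by
    rw [Finset.card_image_of_injective _ hφinj, hBcard]
  refine ⟨B.image φ, ?_, ⟨0, ?_⟩, ?_⟩
  · rw [hXcard]
    calc k ≤ M := by omega
      _ = M ^ 1 := (pow_one _).symm
      _ ≤ M ^ d := Nat.pow_le_pow_right (by omega) hd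
  · intro x hx
    rw [Finset.mem_coe, Finset.mem_image] at hx
    obtain ⟨f, hf, rfl⟩ := hx
    rw [hB, Fintype.mem_piFinset] at hf
    rw [Metric.mem_closedBall, dist_zero_right, EuclideanSpace.norm_eq]
    apply Real.sqrt_le_one.2
    have h1 : ∀ j ∈ (Finset.univ : Finset (Fin d)), ‖φ f j‖ ^ 2 ≤ (1 / d : ℝ) := by
      intro j _
      have hfj := Finset.mem_Ico.1 (hf j)
      have h2 : (0 : ℝ) ≤ f j := by exact_mod_cast hfj.1
      have h3 : (f j : ℝ) ≤ M := by exact_mod_cast hfj.2.le
      have h4 : 0 ≤ φ f j := by simp only [hφ]; positivity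
      have h5 : φ f j ≤ 1 / d := by
        simp only [hφ]
        calc s * (f j : ℝ) ≤ s * M := by gcongr
          _ = 1 / d := by rw [hs]; field_simp
      have h6 : (1 / d : ℝ) ≤ 1 := by
        rw [div_le_one hd0]
        exact_mod_cast hd
      rw [Real.norm_eq_abs, sq_abs]
      nlinarith
    refine (Finset.sum_le_sum h1).trans ?_
    rw [Finset.sum_const, Finset.card_univ, Fintype.card_fin, nsmul_eq_mul]
    rw [mul_one_div_cancel hd0.ne']
  · intro c r hr
    rw [vol_closedBall c hr, hXcard]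
    set q : ℕ := ⌊2 * r / s⌋₊ with hq
    have hcount : ((B.image φ).filter (fun x => x ∈ Metric.closedBall c r)).card ≤ (q + 1) ^ d := by
      have h1 : (B.image φ).filter (fun x => x ∈ Metric.closedBall c r) =
          (B.filter (fun f => φ f ∈ Metric.closedBall c r)).image φ := by
        rw [Finset.filter_image]
      rw [h1]
      refine Finset.card_image_le.trans ?_
      apply card_le_int_box
      intro f hf g hg j
      rw [Finset.mem_filter] at hf hg
      have e1 := Metric.mem_closedBall.1 hf.2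
      have e2 := Metric.mem_closedBall.1 hg.2
      have e3 := dist_triangle_right (φ f) (φ g) c
      have e4 := abs_coord_le (φ f) (φ g) j
      have e5 : φ f j - φ g j ≤ 2 * r := by
        have := (abs_le.1 e4).2
        linarith
      have e6 : φ f j - φ g j = s * ((f j - g j : ℤ) : ℝ) := by
        simp only [hφ]; push_cast; ring
      rw [e6] at e5
      have e7 : ((f j - g j : ℤ) : ℝ) ≤ 2 * r / s := by
        rw [le_div_iff₀ hspos]
        linarith
      have e8 : f j - g j ≤ (q : ℤ) := by
        have h9 : f j - g j ≤ ⌊2 * r / s⌋ := Int.le_floor.2 e7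
        rw [hq, Int.natCast_floor_eq_floor (by positivity)]
        exact h9
      omega
    have hprod : 0 < α * ((M ^ d : ℕ) : ℝ) * (r ^ d * om d) := by positivity
    by_cases hsmall : 2 * r < s
    · have hq0 : q = 0 := by
        rw [hq, Nat.floor_eq_zero, div_lt_one hspos]
        exact hsmall
      rw [hq0] at hcount
      simp only [zero_add, one_pow] at hcount
      have h1 : (1 : ℤ) ≤ ⌈α * ((M ^ d : ℕ) : ℝ) * (r ^ d * om d)⌉ := by
        rw [Int.one_le_ceil_iff]
        exact hprod
      have h2 : (((B.image φ).filter (fun x => x ∈ Metric.closedBall c r)).card : ℤ) ≤ 1 := by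
        exact_mod_cast hcount
      exact h2.trans h1
    · push Not at hsmall
      have h1 : ((q : ℝ) + 1) ≤ 4 * r / s := by
        have e1 : (q : ℝ) ≤ 2 * r / s := Nat.floor_le (by positivity)
        have e2 : 1 ≤ 2 * r / s := by
          rw [le_div_iff₀ hspos]; linarith
        have e3 : 4 * r / s = 2 * r / s + 2 * r / s := by ring
        linarith
      have h2 : ((q : ℝ) + 1) ^ d ≤ α * ((M ^ d : ℕ) : ℝ) * (r ^ d * om d) := by
        calc ((q : ℝ) + 1) ^ d ≤ (4 * r / s) ^ d := by gcongr
          _ = (4 * d) ^ d / om d * ((M ^ d : ℕ) : ℝ) * (r ^ d * om d) := by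
              rw [hs]
              push_cast
              have : 4 * r / (1 / ((M : ℝ) * d)) = (4 * d) * M * r := by
                field_simp
              rw [this, mul_pow, mul_pow]
              field_simp
          _ ≤ α * ((M ^ d : ℕ) : ℝ) * (r ^ d * om d) := by
              have : (4 * (d : ℝ)) ^ d / om d ≤ α := by rw [hα]; linarith
              gcongr
      have h3 : (((B.image φ).filter (fun x => x ∈ Metric.closedBall c r)).card : ℝ) ≤
          (⌈α * ((M ^ d : ℕ) : ℝ) * (r ^ d * om d)⌉ : ℝ) := by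
        have e1 : (((B.image φ).filter (fun x => x ∈ Metric.closedBall c r)).card : ℝ) ≤
            ((q : ℝ) + 1) ^ d := by exact_mod_cast hcount
        exact (e1.trans h2).trans (Int.le_ceil _)
      exact_mod_cast h3

end Pool.Agent.R145.Peel
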